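import Pool.Agent.Helper50.CT.Goals

/-!
# Project CT (MP_ccd65d_gt), packet MID: the middle of the tube
-/

set_option autoImplicit false

open Set Filter Topology Pool.Agent.Helper50.CT

namespace Pool.Agent.Helper16.CT

theorem goalMID (hSJ : Pool.Agent.Helper50.CT.StmtSJ) (hBG : Pool.Agent.Helper50.CT.StmtBG)
    (hGEN : Pool.Agent.Helper50.CT.StmtGEN) (hFC : Pool.Agent.Helper50.CT.StmtFC)
    (hTRI : Pool.Agent.Helper50.CT.StmtTRI) : Pool.Agent.Helper50.CT.StmtMID := by
  intro n κ X T _ _ _ π hκ hG hC hV p q c D e h hR t t' ht1 ht2 ht3 ht4 k hk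
  have he : 0 < e := hR.epos
  have hh : 0 < h := hR.hpos
  have hsm : 10000 * e ≤ h := hR.small
  have hkh : κ * h ≤ 1 := hR.kh
  have hle : ∀ x y : X, dist (π x) (π y) ≤ dist x y := by
    intro x y
    have h1 := hV.le x y 0
    rwa [zero_vadd] at h1
  obtain ⟨hF1, hF2⟩ := hFC κ X T π hle p q c D e h hR
  have ht'0 : 0 ≤ t' := by linarith
  have m0 : t' ∈ Icc (0 : ℝ) D := ⟨ht'0, by linarith⟩
  have m2 : t' + 2 * e ∈ Icc (0 : ℝ) D := ⟨by linarith, by linarith⟩
  have mh : t' + h ∈ Icc (0 : ℝ) D := ⟨by linarith, by linarith⟩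
  have ms : t' - h / 100 ∈ Icc (0 : ℝ) D := ⟨by linarith, by linarith⟩
  have fq : t' < dist (π p) (π q) := by rw [hR.dpq]; linarith
  -- positions
  have fy : dist (π p) (π (c t')) = t' := hF1 t' m0
  have fy0 : dist (π p) (π (c (t' + 2 * e))) = t' + 2 * e := hF1 _ m2
  have fP2 : dist (π p) (π (c (t' + h))) = t' + h := hF1 _ mh
  have fP1 : dist (π p) (π (c (t' - h / 100))) = t' - h / 100 := hF1 _ ms
  obtain ⟨B, hB⟩ := (hBG n X T π hV p q t').1 fq
  have hmem := hGEN n X T π hG hV p q (c t') (c (t' + 2 * e)) t t' e (3 * e) (2 * e) (7 * e)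
    he ht2 hR.thin (by rw [hR.dpq]; linarith)
    (by
      intro w hw1 hw2
      have h1 := hR.thin w (c t')
      rw [fy] at h1
      have h2 : |dist (π p) (π w) - t'| < 2 * e := by
        rw [abs_lt]
        constructor
        · linarith
        · linarith
      linarith)
    fy0
    (by
      rw [hR.iso _ m0 _ m2]
      rw [abs_le]
      constructor <;> linarith)
    (by
      have h1 := hF2 t' (t' + 2 * e) D (by linarith) (by linarith) (by linarith) le_rfl
      rwa [hR.cD] at h1)
    (by linarith) (by linarith) k hk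
  have hsub : ({k : Fin n → ℤ | JoinedIn (Up π p t') q (k +ᵥ q)} ∪ Sh n (c t') (7 * e))
      ⊆ (B : Set (Fin n → ℤ)) := by
    intro k' hk'
    rcases hk' with hk' | hk'
    · exact (hB k').2 hk'
    · by_contra hcon
      have hd : dist (c t') (k' +ᵥ c t') ≤ 7 * e := hk'
      have hnj : ¬ JoinedIn (Up π p t') q (k' +ᵥ q) := fun hj => hcon ((hB k').2 hj)
      have d1 : dist (c t') (c (t' - h / 100)) = h / 100 := by
        rw [hR.iso _ m0 _ ms]
        rw [show t' - (t' - h / 100) = h / 100 by ring, abs_of_pos (by linarith)]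
      have d2 : dist (c t') (c (t' + h)) = h := by
        rw [hR.iso _ m0 _ mh]
        rw [show t' - (t' + h) = -h by ring, abs_neg, abs_of_pos hh]
      have fP3 : dist (π p) (π (k' +ᵥ c (t' + h))) = t' + h := by
        rw [hV.inv, fP2]
      have d3l : h ≤ dist (c t') (k' +ᵥ c (t' + h)) := by
        have h1 := hle (c t') (k' +ᵥ c (t' + h))
        have h2 := dist_triangle (π p) (π (c t')) (π (k' +ᵥ c (t' + h)))
        rw [fP3, fy] at h2
        linarith
      have d3u : dist (c t') (k' +ᵥ c (t' + h)) ≤ h + 7 * e := by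
        have h1 := dist_triangle (c t') (k' +ᵥ c t') (k' +ᵥ c (t' + h))
        rw [hV.isom, d2] at h1
        linarith
      have d12 : dist (c (t' - h / 100)) (c (t' + h)) = h + h / 100 := by
        rw [hR.iso _ ms _ mh]
        rw [show t' - h / 100 - (t' + h) = -(h + h / 100) by ring, abs_neg,
          abs_of_pos (by linarith)]
      have d13 : h + h / 100 ≤ dist (c (t' - h / 100)) (k' +ᵥ c (t' + h)) := by
        have h1 := hle (c (t' - h / 100)) (k' +ᵥ c (t' + h))
        have h2 := dist_triangle (π p) (π (c (t' - h / 100))) (π (k' +ᵥ c (t' + h)))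
        rw [fP3, fP1] at h2
        linarith
      have d23 : 2 * h ≤ dist (c (t' + h)) (k' +ᵥ c (t' + h)) := by
        by_contra hlt
        rw [not_le] at hlt
        have j1 : JoinedIn (Up π p t') (c (t' + h)) (k' +ᵥ c (t' + h)) := by
          apply hSJ X T π hG hle
          rw [fP3, fP2]
          linarith
        have j2 : JoinedIn (Up π p t') (c (t' + h)) q := by
          have h1 := hF2 t' (t' + h) D (by linarith) (by linarith) (by linarith) le_rfl
          rwa [hR.cD] at h1
        exact hnj ((hBG n X T π hV p (c (t' + h)) t').2.1 q k' j2 j1)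
      have hκe : κ * e ≤ 1 / 10000 := by
        have h1 : κ * (10000 * e) ≤ κ * h := mul_le_mul_of_nonneg_left hsm hκ.le
        nlinarith
      refine hTRI κ hκ X hC (c t') (c (t' - h / 100)) (c (t' + h)) (k' +ᵥ c (t' + h)) (7 * e)
        ?_ ?_ ?_ ?_ ?_ ?_ ?_ ?_ ?_ ?_ ?_ ?_
      · rw [d1]; linarith
      · rw [d2]; linarith
      · linarith
      · rw [d1]
        have h1 : κ * (h / 100) = κ * h / 100 := by ring
        rw [h1]; linarith
      · rw [d2]; linarith
      · have h1 : κ * dist (c t') (k' +ᵥ c (t' + h)) ≤ κ * (h + 7 * e) :=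
          mul_le_mul_of_nonneg_left d3u hκ.le
        have h2 : κ * (h + 7 * e) = κ * h + 7 * (κ * e) := by ring
        rw [h2] at h1
        linarith
      · rw [d1]; linarith
      · rw [d2]; linarith
      · linarith
      · rw [d1, d2, d12]; linarith
      · rw [d1]; linarith
      · rw [d2]; linarith
  have hcl : AddSubgroup.closure
      ({k : Fin n → ℤ | JoinedIn (Up π p t') q (k +ᵥ q)} ∪ Sh n (c t') (7 * e)) ≤ B :=
    (AddSubgroup.closure_le B).2 hsub
  exact (hB k).1 (hcl hmem)

end Pool.Agent.Helper16.CT
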